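import Pool.Agent.Helper50.VD.St

open MeasureTheory Set Filter Topology
open scoped ENNReal

noncomputable section

namespace VD.M_C1

theorem measurable_mk : Measurable mk := by
  unfold mk fF
  fun_prop

/-- positivity of the denominators -/
theorem den_pos {x m y : ℝ} (hy : 0 < y) : 0 < x ^ 2 + (m ^ 2 + y ^ 2) - 2 * x * m := by
  have : x ^ 2 + (m ^ 2 + y ^ 2) - 2 * x * m = (x - m) ^ 2 + y ^ 2 := by ring
  rw [this]
  positivity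

theorem den_pos' {x m y : ℝ} (hy : 0 < y) : 0 < x ^ 2 + (m ^ 2 + y ^ 2) + 2 * x * m := by
  have : x ^ 2 + (m ^ 2 + y ^ 2) + 2 * x * m = (x + m) ^ 2 + y ^ 2 := by ring
  rw [this]
  positivity

theorem f1_pos {y : ℝ × ℝ} (hy : 0 < y.2) :
    0 < fF (6475 ^ 2) 6475 (y.1 ^ 2 + y.2 ^ 2) y.1 := by
  unfold fF
  have h1 := den_pos (x := 6475) (m := y.1) hy
  have h2 := den_pos' (x := 6475) (m := y.1) hy
  positivity

theorem f2_pos {y : ℝ × ℝ} (hy : 0 < y.2) :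
    0 < fF (3887 ^ 2) 0 (y.1 ^ 2 + y.2 ^ 2) y.1 := by
  unfold fF
  have h1 : (3887 : ℝ) ^ 2 + (y.1 ^ 2 + y.2 ^ 2) - 2 * 0 * y.1 = 3887 ^ 2 + (y.1 ^ 2 + y.2 ^ 2) := by
    ring
  have h2 : (3887 : ℝ) ^ 2 + (y.1 ^ 2 + y.2 ^ 2) + 2 * 0 * y.1 = 3887 ^ 2 + (y.1 ^ 2 + y.2 ^ 2) := by
    ring
  rw [h1, h2]
  positivity

theorem mk_pos {y : ℝ × ℝ} (hy : 0 < y.2) : 0 < mk y := by
  unfold mk
  exact div_pos (lt_min (f1_pos hy) (f2_pos hy)) Real.pi_pos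

theorem f2_scale {y : ℝ × ℝ} (hy : 0 < y.2) {r : ℝ} (hr : 0 < r) (hr1 : r ≤ 1) :
    r ^ 2 * fF (3887 ^ 2) 0 ((r * y.1) ^ 2 + (r * y.2) ^ 2) (r * y.1) ≤
      fF (3887 ^ 2) 0 (y.1 ^ 2 + y.2 ^ 2) y.1 := by
  unfold fF
  have e1 : (3887 : ℝ) ^ 2 + ((r * y.1) ^ 2 + (r * y.2) ^ 2) - 2 * 0 * (r * y.1) =
      3887 ^ 2 + r ^ 2 * (y.1 ^ 2 + y.2 ^ 2) := by ring
  have e2 : (3887 : ℝ) ^ 2 + ((r * y.1) ^ 2 + (r * y.2) ^ 2) + 2 * 0 * (r * y.1) =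
      3887 ^ 2 + r ^ 2 * (y.1 ^ 2 + y.2 ^ 2) := by ring
  have e3 : (3887 : ℝ) ^ 2 + (y.1 ^ 2 + y.2 ^ 2) - 2 * 0 * y.1 = 3887 ^ 2 + (y.1 ^ 2 + y.2 ^ 2) := by
    ring
  have e4 : (3887 : ℝ) ^ 2 + (y.1 ^ 2 + y.2 ^ 2) + 2 * 0 * y.1 = 3887 ^ 2 + (y.1 ^ 2 + y.2 ^ 2) := by
    ring
  rw [e1, e2, e3, e4]
  have h1 : r ^ 2 * (1 / (3887 ^ 2 + r ^ 2 * (y.1 ^ 2 + y.2 ^ 2))) ≤
      1 / (3887 ^ 2 + (y.1 ^ 2 + y.2 ^ 2)) := by
    rw [mul_one_div, div_le_div_iff₀ (by positivity) (by positivity)]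
    have : r ^ 2 ≤ 1 := by nlinarith
    nlinarith
  linarith

theorem f1_scale {y : ℝ × ℝ} (hy1 : 0 < y.1) (hy : 0 < y.2) (hle : y.1 ≤ 6475) {r : ℝ}
    (hr : 0 < r) (hr1 : r ≤ 1) :
    r ^ 2 * fF (6475 ^ 2) 6475 ((r * y.1) ^ 2 + (r * y.2) ^ 2) (r * y.1) ≤
      fF (6475 ^ 2) 6475 (y.1 ^ 2 + y.2 ^ 2) y.1 := by
  unfold fF
  have e1 : (6475 : ℝ) ^ 2 + ((r * y.1) ^ 2 + (r * y.2) ^ 2) - 2 * 6475 * (r * y.1) =
      (6475 - r * y.1) ^ 2 + (r * y.2) ^ 2 := by ring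
  have e2 : (6475 : ℝ) ^ 2 + ((r * y.1) ^ 2 + (r * y.2) ^ 2) + 2 * 6475 * (r * y.1) =
      (6475 + r * y.1) ^ 2 + (r * y.2) ^ 2 := by ring
  have e3 : (6475 : ℝ) ^ 2 + (y.1 ^ 2 + y.2 ^ 2) - 2 * 6475 * y.1 = (6475 - y.1) ^ 2 + y.2 ^ 2 := by
    ring
  have e4 : (6475 : ℝ) ^ 2 + (y.1 ^ 2 + y.2 ^ 2) + 2 * 6475 * y.1 = (6475 + y.1) ^ 2 + y.2 ^ 2 := by
    ring
  rw [e1, e2, e3, e4]
  have hry : 0 < r * y.2 := mul_pos hr hy
  have hr6 : r * 6475 ≤ 6475 := by linarith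
  have hry1 : 0 < r * y.1 := mul_pos hr hy1
  have h1 : r ^ 2 * (1 / ((6475 - r * y.1) ^ 2 + (r * y.2) ^ 2)) ≤
      1 / ((6475 - y.1) ^ 2 + y.2 ^ 2) := by
    rw [mul_one_div, div_le_div_iff₀ (by positivity) (by positivity)]
    have h2 : (r * (6475 - y.1)) ^ 2 ≤ (6475 - r * y.1) ^ 2 := by
      apply pow_le_pow_left₀
      · exact mul_nonneg hr.le (by linarith)
      · nlinarith
    nlinarith
  have h3 : r ^ 2 * (1 / ((6475 + r * y.1) ^ 2 + (r * y.2) ^ 2)) ≤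
      1 / ((6475 + y.1) ^ 2 + y.2 ^ 2) := by
    rw [mul_one_div, div_le_div_iff₀ (by positivity) (by positivity)]
    have h2 : (r * (6475 + y.1)) ^ 2 ≤ (6475 + r * y.1) ^ 2 := by
      apply pow_le_pow_left₀
      · positivity
      · nlinarith
    nlinarith
  linarith

/-- lower bound of `N` -/
theorem N_lower (hK1 : StK1) {z y : ℝ × ℝ} (hz : 0 ≤ z.2) (hy : 0 < y.2) (hne : z ≠ y) :
    y.2 / Real.pi * (1 / ((z.1 - y.1) ^ 2 + z.2 ^ 2 + y.2 ^ 2)) ≤ N z y := by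
  refine le_trans ?_ (hK1 z y hz hy hne).2.2.2.2
  have hpi := Real.pi_pos
  have h1 : 0 ≤ (2 * z.2 * y.2) ^ 2 / (3 * ((z.1 - y.1) ^ 2 + z.2 ^ 2 + y.2 ^ 2) ^ 3) := by
    positivity
  have h2 : 0 ≤ y.2 / Real.pi := by positivity
  nlinarith

end VD.M_C1

namespace VD

open M_C1 in
/-- properties of the lower bound mk of the contact kernels -/
theorem mC1 (hK1 : StK1) (hP0 : StP0) (hW1 : StW1) (hA3 : StA3) : StC1 := by
  refine ⟨?_, fun y _ hy2 => mk_pos hy2, ?_, ?_⟩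
  · intro p y hp1 hp2 hgp hy1 hy2 hne
    have hg := hP0.2.2.1 p hp2
    have hpx : p.1 ≤ 6475 := by
      have h1 := hg.2.1
      rw [abs_of_nonneg hp1] at h1
      nlinarith [hg.1]
    have h1 := N_lower hK1 hp2 hy2 hne
    have hne2 : p ≠ (-y.1, y.2) := by
      intro h
      rw [h] at hp1
      have : 0 ≤ -y.1 := hp1
      linarith
    have h2 := N_lower hK1 (z := p) (y := (-y.1, y.2)) hp2 hy2 hne2
    have h3 : mk y ≤ fF (p.1 ^ 2 + p.2 ^ 2) p.1 (y.1 ^ 2 + y.2 ^ 2) y.1 / Real.pi := by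
      unfold mk
      apply div_le_div_of_nonneg_right _ Real.pi_pos.le
      rw [min_comm]
      have hA := hA3 1 p one_pos hp1 hp2 hgp
      apply hW1 (3887 ^ 2) 0 (6475 ^ 2) 6475 _ _ _ _ le_rfl hp1 hpx (by norm_num) hy1.le
      · nlinarith
      · norm_num
      · norm_num
      · norm_num
      · norm_num
      · nlinarith [sq_nonneg p.2]
      · simp only [mul_one] at hA
        nlinarith
    have h4 : y.2 * (fF (p.1 ^ 2 + p.2 ^ 2) p.1 (y.1 ^ 2 + y.2 ^ 2) y.1 / Real.pi) =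
        y.2 / Real.pi * (1 / ((p.1 - y.1) ^ 2 + p.2 ^ 2 + y.2 ^ 2)) +
        y.2 / Real.pi * (1 / ((p.1 - -y.1) ^ 2 + p.2 ^ 2 + y.2 ^ 2)) := by
      unfold fF
      have e1 : p.1 ^ 2 + p.2 ^ 2 + (y.1 ^ 2 + y.2 ^ 2) - 2 * p.1 * y.1 =
          (p.1 - y.1) ^ 2 + p.2 ^ 2 + y.2 ^ 2 := by ring
      have e2 : p.1 ^ 2 + p.2 ^ 2 + (y.1 ^ 2 + y.2 ^ 2) + 2 * p.1 * y.1 =
          (p.1 - -y.1) ^ 2 + p.2 ^ 2 + y.2 ^ 2 := by ring
      rw [e1, e2]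
      ring
    calc y.2 * mk y ≤ y.2 * (fF (p.1 ^ 2 + p.2 ^ 2) p.1 (y.1 ^ 2 + y.2 ^ 2) y.1 / Real.pi) := by
          gcongr
      _ ≤ N p y + N p (-y.1, y.2) := by
          rw [h4]
          exact add_le_add h1 h2
  · intro y r hy1 hy2 hgy hr hr1
    have hg := hP0.2.2.1 y hy2.le
    have hyx : y.1 ≤ 6475 := by
      have h1 := hg.2.1
      rw [abs_of_pos hy1] at h1
      nlinarith [hg.1]
    unfold mk
    rw [← mul_div_assoc]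
    apply div_le_div_of_nonneg_right _ Real.pi_pos.le
    rw [mul_min_of_nonneg _ _ (by positivity : (0 : ℝ) ≤ r ^ 2)]
    exact min_le_min (f1_scale hy1 hy2 hyx hr hr1) (f2_scale hy2 hr hr1)
  · intro S hS hSP
    have hsub : S ∩ {y | 0 < y.1} ⊆ PB 1 := inter_subset_left.trans hSP
    have hPB := (hP0.2.2.2.2.2.2 1 one_pos).1
    have hm : MeasurableSet (S ∩ {y : ℝ × ℝ | 0 < y.1}) :=
      hS.inter (measurableSet_lt measurable_const measurable_fst)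
    refine Measure.integrableOn_of_bounded
      (lt_of_le_of_lt (measure_mono hsub) hPB.vol).ne
      (M := 3887 * ((2 / 3887 ^ 2) / Real.pi)) ?_ ?_
    · exact (measurable_snd.mul measurable_mk).aestronglyMeasurable
    · refine (ae_restrict_iff' hm).2 (Eventually.of_forall fun y hy => ?_)
      have hy2 : 0 < y.2 := (hsub hy).1
      have hgy : g y < 1 := (hsub hy).2
      have hg := hP0.2.2.1 y hy2.le
      have hy3 : y.2 ≤ 3887 := by nlinarith [hg.2.2.1, hg.1]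
      have hmk := mk_pos hy2
      rw [Real.norm_of_nonneg (mul_nonneg hy2.le hmk.le)]
      have h1 : mk y ≤ (2 / 3887 ^ 2) / Real.pi := by
        unfold mk
        apply div_le_div_of_nonneg_right _ Real.pi_pos.le
        refine (min_le_right _ _).trans ?_
        unfold fF
        have e1 : (3887 : ℝ) ^ 2 + (y.1 ^ 2 + y.2 ^ 2) - 2 * 0 * y.1 =
          3887 ^ 2 + (y.1 ^ 2 + y.2 ^ 2) := by ring
        have e2 : (3887 : ℝ) ^ 2 + (y.1 ^ 2 + y.2 ^ 2) + 2 * 0 * y.1 =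
          3887 ^ 2 + (y.1 ^ 2 + y.2 ^ 2) := by ring
        rw [e1, e2]
        have h2 : 1 / ((3887 : ℝ) ^ 2 + (y.1 ^ 2 + y.2 ^ 2)) ≤ 1 / 3887 ^ 2 := by
          apply one_div_le_one_div_of_le (by norm_num)
          nlinarith [sq_nonneg y.1, sq_nonneg y.2]
        calc 1 / ((3887 : ℝ) ^ 2 + (y.1 ^ 2 + y.2 ^ 2)) +
              1 / ((3887 : ℝ) ^ 2 + (y.1 ^ 2 + y.2 ^ 2)) ≤ 1 / 3887 ^ 2 + 1 / 3887 ^ 2 :=
              add_le_add h2 h2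
          _ = 2 / 3887 ^ 2 := by ring
      have h3 : (0 : ℝ) ≤ mk y := hmk.le
      gcongr

end VD
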