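import Pool.Agent.Helper50.VD.St

open MeasureTheory Set Filter Topology
open scoped ENNReal Pointwise

noncomputable section

namespace VD.M_U4

/-! ### dilations -/

theorem mem_dil {r : ℝ} {A : Set (ℝ × ℝ)} {z : ℝ × ℝ} :
    z ∈ dil r A ↔ (z.1 / r, z.2 / r) ∈ A := Iff.rfl

theorem dil_dil (r s : ℝ) (A : Set (ℝ × ℝ)) : dil r (dil s A) = dil (r * s) A := by
  ext z
  show (z.1 / r / s, z.2 / r / s) ∈ A ↔ (z.1 / (r * s), z.2 / (r * s)) ∈ A
  rw [div_div, div_div]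

theorem dil_one (A : Set (ℝ × ℝ)) : dil 1 A = A := by
  ext z
  simp [dil]

theorem dil_mono {A : Set (ℝ × ℝ)} (h : DM A) {r s : ℝ} (hr : 0 < r) (hrs : r ≤ s) :
    dil r A ⊆ dil s A := by
  intro z hz
  have hs : 0 < s := hr.trans_le hrs
  have hz' : (z.1 / r, z.2 / r) ∈ A := hz
  have h2 : 0 < z.2 / r := h.sub hz'
  have hz2 : 0 < z.2 := by
    have := mul_pos h2 hr
    rwa [div_mul_cancel₀ _ hr.ne'] at this
  refine h.mono _ hz' (z.1 / s, z.2 / s) (div_pos hz2 hs) ?_ ?_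
  · show |z.1 / s| ≤ |z.1 / r|
    rw [abs_div, abs_div, abs_of_pos hs, abs_of_pos hr]
    exact div_le_div_of_nonneg_left (abs_nonneg _) hr hrs
  · exact div_le_div_of_nonneg_left hz2.le hr hrs

theorem dil_subset {A B : Set (ℝ × ℝ)} (h : A ⊆ B) (r : ℝ) : dil r A ⊆ dil r B :=
  fun _ hz => h hz

theorem dm_dil {A : Set (ℝ × ℝ)} (h : DM A) {r : ℝ} (hr : 0 < r) : DM (dil r A) := by
  refine ⟨?_, ?_, ?_, ?_⟩
  · exact h.meas.preimage (f := fun z : ℝ × ℝ => (z.1 / r, z.2 / r)) (by fun_prop)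
  · intro z hz
    have h2 : 0 < z.2 / r := h.sub hz
    have := mul_pos h2 hr
    rwa [div_mul_cancel₀ _ hr.ne'] at this
  · obtain ⟨R, hR⟩ := h.bdd
    refine ⟨R * r, fun z hz => ?_⟩
    obtain ⟨h1, h2, h3⟩ := hR hz
    refine ⟨?_, ?_, ?_⟩
    · have h1' : |z.1 / r| ≤ R := h1
      rw [abs_div, abs_of_pos hr, div_le_iff₀ hr] at h1'
      exact h1'
    · have h2' : 0 < z.2 / r := h2
      have := mul_pos h2' hr
      rwa [div_mul_cancel₀ _ hr.ne'] at this
    · have h3' : z.2 / r ≤ R := h3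
      rwa [div_le_iff₀ hr] at h3'
  · intro z hz w hw hw1 hw2
    refine h.mono _ hz (w.1 / r, w.2 / r) (div_pos hw hr) ?_ ?_
    · show |w.1 / r| ≤ |z.1 / r|
      rw [abs_div, abs_div, abs_of_pos hr]
      gcongr
    · show w.2 / r ≤ z.2 / r
      gcongr

theorem phi_dil (hK5 : StK5) {A : Set (ℝ × ℝ)} (h : DM A) {r : ℝ} (hr : 0 < r) (z : ℝ × ℝ) :
    phi (dil r A) z = r * phi A (z.1 / r, z.2 / r) := by
  have h1 := (hK5.1 A r h.meas h.sub hr).1 (z.1 / r, z.2 / r)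
  have h2 : (r * (z.1 / r), r * (z.2 / r)) = z := by
    rw [mul_div_cancel₀ _ hr.ne', mul_div_cancel₀ _ hr.ne']
  rw [← h1]
  show phi (dil r A) z = phi (dil r A) (r * (z.1 / r), r * (z.2 / r))
  rw [h2]

theorem sol_dil (hK5 : StK5) {A : Set (ℝ × ℝ)} {W : ℝ} (h : Sol A W) {r : ℝ} (hr : 0 < r) :
    Sol (dil r A) (r * W) := by
  refine ⟨dm_dil h.dm hr, ?_, mul_pos hr h.pos, ?_⟩
  · obtain ⟨z, hz⟩ := h.ne
    refine ⟨(r * z.1, r * z.2), ?_⟩
    show (r * z.1 / r, r * z.2 / r) ∈ A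
    rw [mul_div_cancel_left₀ _ hr.ne', mul_div_cancel_left₀ _ hr.ne']
    exact hz
  · intro z hz
    rw [mem_dil, h.iff _ (div_pos hz hr), phi_dil hK5 h.dm hr]
    exact (mul_lt_mul_iff_right₀ hr).symm

theorem vol_sdiff (hK5 : StK5) {A : Set (ℝ × ℝ)} (h : DM A) {r s : ℝ} (hr : 0 < r)
    (hrs : r ≤ s) :
    (volume (dil s A \ dil r A)).toReal = (s ^ 2 - r ^ 2) * (volume A).toReal := by
  have hs : 0 < s := hr.trans_le hrs
  have h1 := (hK5.1 A r h.meas h.sub hr).2.2.1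
  have h2 := (hK5.1 A s h.meas h.sub hs).2.2.1
  have hsub := dil_mono h hr hrs
  rw [measure_sdiff hsub (dm_dil h hr).meas.nullMeasurableSet (dm_dil h hr).vol.ne,
    ENNReal.toReal_sub_of_le (measure_mono hsub) (dm_dil h hs).vol.ne, h1, h2,
    ENNReal.toReal_mul, ENNReal.toReal_mul, ENNReal.toReal_ofReal (by positivity),
    ENNReal.toReal_ofReal (by positivity)]
  ring

theorem null_outer (hK5 : StK5) {A B : Set (ℝ × ℝ)} (hA : DM A) {a : ℝ} (ha : 0 < a)
    (h : ∀ r, a < r → B ⊆ dil r A) : volume (B \ dil a A) = 0 := by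
  have hfin : volume (B \ dil a A) ≠ ∞ := by
    have h1 : B \ dil a A ⊆ dil (a + 1) A := fun z hz => h (a + 1) (by linarith) hz.1
    exact ne_top_of_le_ne_top (dm_dil hA (by linarith)).vol.ne (measure_mono h1)
  have hle : (volume (B \ dil a A)).toReal ≤ 0 := by
    have ht : Tendsto (fun s : ℝ => (s ^ 2 - a ^ 2) * (volume A).toReal) (𝓝[>] a)
        (𝓝 ((a ^ 2 - a ^ 2) * (volume A).toReal)) := by
      have hc : Continuous (fun s : ℝ => (s ^ 2 - a ^ 2) * (volume A).toReal) := by fun_prop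
      exact (hc.tendsto a).mono_left nhdsWithin_le_nhds
    rw [sub_self, zero_mul] at ht
    refine ge_of_tendsto ht ?_
    refine eventually_nhdsWithin_of_forall fun s hs => ?_
    have hs' : a < s := hs
    rw [← vol_sdiff hK5 hA ha hs'.le]
    apply ENNReal.toReal_mono
    · exact ne_top_of_le_ne_top (dm_dil hA (ha.trans hs')).vol.ne (measure_mono sdiff_subset)
    · exact measure_mono (sdiff_subset_sdiff_left (h s hs'))
  have := (ENNReal.toReal_eq_zero_iff _).1 (le_antisymm hle ENNReal.toReal_nonneg)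
  exact this.resolve_right hfin

theorem null_inner (hK5 : StK5) {A B : Set (ℝ × ℝ)} (hA : DM A) {a : ℝ} (ha : 0 < a)
    (h : ∀ r, 0 < r → r < a → dil r A ⊆ B) : volume (dil a A \ B) = 0 := by
  have hfin : volume (dil a A \ B) ≠ ∞ :=
    ne_top_of_le_ne_top (dm_dil hA ha).vol.ne (measure_mono sdiff_subset)
  have hle : (volume (dil a A \ B)).toReal ≤ 0 := by
    have ht : Tendsto (fun s : ℝ => (a ^ 2 - s ^ 2) * (volume A).toReal) (𝓝[<] a)
        (𝓝 ((a ^ 2 - a ^ 2) * (volume A).toReal)) := by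
      have hc : Continuous (fun s : ℝ => (a ^ 2 - s ^ 2) * (volume A).toReal) := by fun_prop
      exact (hc.tendsto a).mono_left nhdsWithin_le_nhds
    rw [sub_self, zero_mul] at ht
    refine ge_of_tendsto ht ?_
    have h0 : ∀ᶠ s in 𝓝[<] a, 0 < s := (lt_mem_nhds ha).filter_mono nhdsWithin_le_nhds
    filter_upwards [h0, self_mem_nhdsWithin] with s hs0 hs
    have hs' : s < a := hs
    rw [← vol_sdiff hK5 hA hs0 hs'.le]
    apply ENNReal.toReal_mono
    · exact ne_top_of_le_ne_top (dm_dil hA ha).vol.ne (measure_mono sdiff_subset)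
    · exact measure_mono (sdiff_subset_sdiff_right (h s hs0 hs'))
  have := (ENNReal.toReal_eq_zero_iff _).1 (le_antisymm hle ENNReal.toReal_nonneg)
  exact this.resolve_right hfin

theorem dm_abs {A : Set (ℝ × ℝ)} (h : DM A) {z : ℝ × ℝ} : (|z.1|, z.2) ∈ A ↔ z ∈ A :=
  ⟨fun hz => h.mono _ hz z (h.sub hz : (|z.1|, z.2) ∈ Om) (by simp) le_rfl,
    fun hz => h.mono z hz _ (h.sub hz : z ∈ Om) (by simp) le_rfl⟩

/-- limits of points -/
theorem contact (hK3 : StK3) (hg : Continuous g) {A B : Set (ℝ × ℝ)} (hA : DM A) (hB : DM B)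
    (r : ℕ → ℝ) (a : ℝ) (ha : 0 < a) (hr : Tendsto r atTop (𝓝 a)) (hr0 : ∀ n, 0 < r n)
    (z : ℕ → ℝ × ℝ) (R : ℝ) (hz : ∀ n, z n ∈ Box R) (hz1 : ∀ n, 0 ≤ (z n).1) :
    ∃ (p : ℝ × ℝ) (s : ℕ → ℕ), 0 ≤ p.1 ∧ 0 ≤ p.2 ∧ StrictMono s ∧
      Tendsto (fun n => phi B (z (s n))) atTop (𝓝 (phi B p)) ∧
      Tendsto (fun n => phi A ((z (s n)).1 / r (s n), (z (s n)).2 / r (s n))) atTop
        (𝓝 (phi A (p.1 / a, p.2 / a))) ∧
      Tendsto (fun n => g (z (s n))) atTop (𝓝 (g p)) := by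
  have hcomp : IsCompact (Icc ((-R, 0) : ℝ × ℝ) (R, R)) := isCompact_Icc
  have hmem : ∀ n, z n ∈ Icc ((-R, 0) : ℝ × ℝ) (R, R) := by
    intro n
    obtain ⟨h1, h2, h3⟩ := hz n
    rw [abs_le] at h1
    exact ⟨⟨h1.1, h2.le⟩, ⟨h1.2, h3⟩⟩
  obtain ⟨p, -, s, hs, hlim⟩ := hcomp.tendsto_subseq hmem
  have hl1 : Tendsto (fun n => (z (s n)).1) atTop (𝓝 p.1) :=
    (continuous_fst.tendsto p).comp hlim
  have hl2 : Tendsto (fun n => (z (s n)).2) atTop (𝓝 p.2) :=
    (continuous_snd.tendsto p).comp hlim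
  have hp1 : 0 ≤ p.1 := ge_of_tendsto' hl1 fun n => hz1 _
  have hp2 : 0 ≤ p.2 := ge_of_tendsto' hl2 fun n => (hz _).2.1.le
  have hrs : Tendsto (fun n => r (s n)) atTop (𝓝 a) := hr.comp hs.tendsto_atTop
  refine ⟨p, s, hp1, hp2, hs, ?_, ?_, ?_⟩
  · have hc := (hK3 B hB.meas hB.sub hB.vol) p hp2
    exact hc.tendsto.comp (tendsto_nhdsWithin_iff.2
      ⟨hlim, Eventually.of_forall fun n => (hz _).2.1.le⟩)
  · have hc := (hK3 A hA.meas hA.sub hA.vol) (p.1 / a, p.2 / a) (div_nonneg hp2 ha.le)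
    refine hc.tendsto.comp (tendsto_nhdsWithin_iff.2
      ⟨?_, Eventually.of_forall fun n => div_nonneg (hz _).2.1.le (hr0 _).le⟩)
    exact (hl1.div hrs ha.ne').prodMk_nhds (hl2.div hrs ha.ne')
  · exact (hg.tendsto p).comp hlim

/-! ### the functional `Im` -/

/-- good sets -/
def Q : Set (ℝ × ℝ) := {z | 0 < z.2 ∧ g z ≤ 1}

/-- the right half -/
def Hp : Set (ℝ × ℝ) := {y | 0 < y.1}

theorem measurableSet_Hp : MeasurableSet Hp := measurableSet_lt measurable_const measurable_fst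

theorem Im_def (S : Set (ℝ × ℝ)) : Im S = ∫ y in S ∩ Hp, y.2 * mk y := rfl

theorem ae_PB (hP0 : StP0) {S : Set (ℝ × ℝ)} (hS : S ⊆ Q) : (S ∩ PB 1 : Set _) =ᵐ[volume] S := by
  have h0 := (hP0.2.2.2.2.2.2 1 one_pos).2.2.2.2
  have hsub : S \ PB 1 ⊆ {z : ℝ × ℝ | 0 < z.2 ∧ g z = 1} := by
    intro z hz
    have h1 := hS hz.1
    refine ⟨h1.1, le_antisymm h1.2 ?_⟩
    by_contra hlt
    exact hz.2 ⟨h1.1, not_le.1 hlt⟩
  have h1 : volume (S \ PB 1) = 0 := measure_mono_null hsub h0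
  rw [ae_eq_set]
  refine ⟨?_, ?_⟩
  · have : (S ∩ PB 1) \ S = ∅ := by
      ext z; simp only [Set.mem_sdiff, mem_inter_iff, mem_empty_iff_false, iff_false]; tauto
    rw [this]; simp
  · have : S \ (S ∩ PB 1) = S \ PB 1 := by
      ext z; simp only [Set.mem_sdiff, mem_inter_iff]; tauto
    rw [this]; exact h1

theorem integ (hP0 : StP0) (hC1 : StC1) {S : Set (ℝ × ℝ)} (hm : MeasurableSet S) (hS : S ⊆ Q) :
    IntegrableOn (fun y : ℝ × ℝ => y.2 * mk y) (S ∩ Hp) := by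
  have hPB : MeasurableSet (PB 1) := (hP0.2.2.2.2.2.2 1 one_pos).1.meas
  have h1 := hC1.2.2.2 (S ∩ PB 1) (hm.inter hPB) inter_subset_right
  refine h1.congr_set_ae ?_
  exact ((ae_PB hP0 hS).inter (ae_eq_refl Hp)).symm

theorem Im_mono (hP0 : StP0) (hC1 : StC1) {S T : Set (ℝ × ℝ)}
    (hT : MeasurableSet T) (hST : S ⊆ T) (hQ : T ⊆ Q) : Im S ≤ Im T := by
  rw [Im_def, Im_def]
  apply setIntegral_mono_set (integ hP0 hC1 hT hQ)
  · refine (ae_restrict_iff' (hT.inter measurableSet_Hp)).2 (Eventually.of_forall fun y hy => ?_)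
    have h1 : 0 < y.2 := (hQ hy.1).1
    have h2 : 0 < y.1 := hy.2
    exact mul_nonneg h1.le (hC1.2.1 y h2 h1).le
  · exact (inter_subset_inter_left _ hST).eventuallyLE

theorem Im_add (hP0 : StP0) (hC1 : StC1) {S T : Set (ℝ × ℝ)} (hS : MeasurableSet S)
    (hT : MeasurableSet T) (hQ : S ⊆ Q) : Im S = Im (S ∩ T) + Im (S \ T) := by
  rw [Im_def, Im_def, Im_def]
  have h1 := integral_inter_add_sdiff (μ := volume) (s := S ∩ Hp) (t := T) hT
    (integ hP0 hC1 hS hQ)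
  rw [← h1]
  congr 2
  · congr 1
    ext z; simp only [mem_inter_iff]; tauto
  · congr 1
    ext z; simp only [mem_inter_iff, Set.mem_sdiff]; tauto

theorem Im_congr {S T : Set (ℝ × ℝ)} (h : S =ᵐ[volume] T) : Im S = Im T := by
  rw [Im_def, Im_def]
  exact setIntegral_congr_set (h.inter (ae_eq_refl Hp))

/-- reflection -/
def sig : (ℝ × ℝ) ≃ᵐ (ℝ × ℝ) :=
  MeasurableEquiv.prodCongr (MeasurableEquiv.neg ℝ) (MeasurableEquiv.refl ℝ)

theorem sig_apply (z : ℝ × ℝ) : sig z = (-z.1, z.2) := rfl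

theorem mp_sig : MeasurePreserving sig volume volume := by
  have := (Measure.measurePreserving_neg (volume : Measure ℝ)).prod
    (MeasurePreserving.id (volume : Measure ℝ))
  exact this

theorem vol_axis : volume {z : ℝ × ℝ | z.1 = 0} = 0 := by
  have : {z : ℝ × ℝ | z.1 = 0} = {0} ×ˢ univ := by
    ext z; simp
  rw [this, Measure.volume_eq_prod, Measure.prod_prod]
  simp

theorem Im_le (hK2 : StK2) (hP0 : StP0) (hC1 : StC1) {S : Set (ℝ × ℝ)} (hm : MeasurableSet S)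
    (hS : S ⊆ Q) (hsym : ∀ z ∈ S, (-z.1, z.2) ∈ S) (hv : volume S < ∞) {p : ℝ × ℝ}
    (hp1 : 0 ≤ p.1) (hp2 : 0 ≤ p.2) (gp : g p ≤ 1) : Im S ≤ ∫ y in S, N p y := by
  have hOm : S ⊆ Om := fun z hz => (hS hz).1
  have hint : IntegrableOn (N p) S := (hK2 S hm hOm hv p hp2).1
  have hsplit := integral_inter_add_sdiff (μ := volume) (s := S) (t := Hp) measurableSet_Hp hint
  -- the left half
  have hpre : (S \ Hp : Set (ℝ × ℝ)) =ᵐ[volume] sig ⁻¹' (S ∩ Hp) := by
    rw [ae_eq_set]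
    constructor
    · refine measure_mono_null ?_ vol_axis
      intro z hz
      by_contra h0
      have h1 : ¬ (0 < z.1) := hz.1.2
      have h2 : z.1 < 0 := lt_of_le_of_ne (not_lt.1 h1) h0
      apply hz.2
      show (-z.1, z.2) ∈ S ∩ Hp
      exact ⟨hsym z hz.1.1, show (0 : ℝ) < -z.1 by linarith⟩
    · have : sig ⁻¹' (S ∩ Hp) \ (S \ Hp) = ∅ := by
        ext z
        simp only [Set.mem_sdiff, mem_preimage, mem_inter_iff, mem_empty_iff_false, iff_false,
          not_and, not_not]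
        rintro ⟨h1, h2⟩ h3
        exfalso
        rw [sig_apply] at h1 h2
        have h4 := hsym _ h1
        simp only [neg_neg] at h4
        have h5 := h3 h4
        have h6 : (0 : ℝ) < -z.1 := h2
        have h7 : (0 : ℝ) < z.1 := h5
        linarith
      rw [this]; simp
  have hleft : ∫ y in S \ Hp, N p y = ∫ y in S ∩ Hp, N p (-y.1, y.2) := by
    rw [setIntegral_congr_set hpre]
    have := mp_sig.setIntegral_preimage_emb sig.measurableEmbedding
      (fun y => N p (-y.1, y.2)) (S ∩ Hp)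
    rw [← this]
    apply setIntegral_congr_fun (sig.measurable (hm.inter measurableSet_Hp))
    intro y _
    show N p y = N p (-(sig y).1, (sig y).2)
    rw [sig_apply]
    simp
  have hint1 : IntegrableOn (N p) (S ∩ Hp) := hint.mono_set inter_subset_left
  have hint2 : IntegrableOn (fun y : ℝ × ℝ => N p (-y.1, y.2)) (S ∩ Hp) := by
    have h1 : IntegrableOn (N p) (sig ⁻¹' (S ∩ Hp)) :=
      (hint.mono_set sdiff_subset).congr_set_ae hpre.symm
    have h2 := (mp_sig.integrableOn_comp_preimage sig.measurableEmbedding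
      (f := fun y : ℝ × ℝ => N p (-y.1, y.2)) (s := S ∩ Hp)).1
    apply h2
    refine h1.congr_fun ?_ (sig.measurable (hm.inter measurableSet_Hp))
    intro y _
    show N p y = N p (-(sig y).1, (sig y).2)
    rw [sig_apply]
    simp
  rw [← hsplit, hleft, ← integral_add hint1 hint2, Im_def]
  apply setIntegral_mono_ae_restrict (integ hP0 hC1 hm hS) (hint1.add hint2)
  have hne : ∀ᵐ y : ℝ × ℝ ∂volume, y ≠ p := by
    rw [ae_iff]
    simp only [ne_eq, not_not]
    exact measure_singleton p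
  refine (ae_restrict_iff' (hm.inter measurableSet_Hp)).2 ?_
  filter_upwards [hne] with y hy hyS
  exact hC1.1 p y hp1 hp2 gp hyS.2 (hS hyS.1).1 (Ne.symm hy)

/-! ### scaling of `Im` -/

theorem measurable_mk : Measurable mk := by
  unfold mk fF
  fun_prop

theorem Im_dil (S : Set (ℝ × ℝ)) {r : ℝ} (hr : 0 < r) :
    Im (dil r S) = r ^ 3 * ∫ y in S ∩ Hp, y.2 * mk (r * y.1, r * y.2) := by
  have h1 := Measure.setIntegral_comp_smul_of_pos (μ := (volume : Measure (ℝ × ℝ)))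
    (fun y : ℝ × ℝ => y.2 * mk y) (S ∩ Hp) hr
  have h2 : r • (S ∩ Hp) = dil r S ∩ Hp := by
    ext z
    rw [Set.mem_smul_set_iff_inv_smul_mem₀ hr.ne']
    have h3 : r⁻¹ • z = (z.1 / r, z.2 / r) := by
      ext
      · show r⁻¹ * z.1 = z.1 / r
        rw [div_eq_inv_mul]
      · show r⁻¹ * z.2 = z.2 / r
        rw [div_eq_inv_mul]
    rw [h3]
    constructor
    · rintro ⟨h4, h5⟩
      refine ⟨h4, ?_⟩
      have h6 : 0 < z.1 / r := h5
      have := mul_pos h6 hr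
      rwa [div_mul_cancel₀ _ hr.ne'] at this
    · rintro ⟨h4, h5⟩
      exact ⟨h4, div_pos h5 hr⟩
  rw [h2] at h1
  have h4 : Module.finrank ℝ (ℝ × ℝ) = 2 := by simp
  rw [h4] at h1
  have h5 : ∫ y in S ∩ Hp, (r • y).2 * mk (r • y) =
      r * ∫ y in S ∩ Hp, y.2 * mk (r * y.1, r * y.2) := by
    rw [← integral_const_mul]
    congr 1
    ext y
    show r * y.2 * mk (r * y.1, r * y.2) = r * (y.2 * mk (r * y.1, r * y.2))
    ring
  rw [Im_def]
  have h6 : ∫ y in dil r S ∩ Hp, y.2 * mk y =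
      r ^ 2 * ∫ y in S ∩ Hp, (r • y).2 * mk (r • y) := by
    rw [h1, smul_eq_mul, ← mul_assoc, mul_inv_cancel₀ (by positivity), one_mul]
  rw [h6, h5]
  ring

theorem integ_scaled (hP0 : StP0) (hC1 : StC1) {S : Set (ℝ × ℝ)} (hm : MeasurableSet S)
    (hS : S ⊆ Q) {r : ℝ} (hr : 0 < r) (hr1 : r ≤ 1) :
    IntegrableOn (fun y : ℝ × ℝ => y.2 * mk (r * y.1, r * y.2)) (S ∩ Hp) := by
  have h1 := (integ hP0 hC1 hm hS).const_mul (1 / r ^ 2)
  refine Integrable.mono' h1 ?_ ?_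
  · have hmeas : Measurable (fun y : ℝ × ℝ => y.2 * mk (r * y.1, r * y.2)) :=
      measurable_snd.mul (measurable_mk.comp (by fun_prop))
    exact hmeas.aestronglyMeasurable
  · refine (ae_restrict_iff' (hm.inter measurableSet_Hp)).2 (Eventually.of_forall fun y hy => ?_)
    have hy2 : 0 < y.2 := (hS hy.1).1
    have hy1 : 0 < y.1 := hy.2
    have hp := hC1.2.1 (r * y.1, r * y.2) (mul_pos hr hy1) (mul_pos hr hy2)
    have hle := hC1.2.2.1 y r hy1 hy2 (hS hy.1).2 hr hr1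
    rw [Real.norm_of_nonneg (mul_nonneg hy2.le hp.le)]
    have h3 : mk (r * y.1, r * y.2) ≤ 1 / r ^ 2 * mk y := by
      rw [one_div, ← div_eq_inv_mul, le_div_iff₀ (by positivity)]
      linarith
    calc y.2 * mk (r * y.1, r * y.2) ≤ y.2 * (1 / r ^ 2 * mk y) := by gcongr
      _ = 1 / r ^ 2 * (y.2 * mk y) := by ring

/-- the scaling inequality -/
theorem Im_key (hP0 : StP0) (hC1 : StC1) {A : Set (ℝ × ℝ)} (hA : DM A) (hQ : A ⊆ Q)
    (hP : PB (93 / 100) ⊆ A) {r : ℝ} (hr : 0 < r) (hr1 : r ≤ 1) :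
    (1 - r) * Im A + r * Im (PB (93 / 100)) - Im (PB (93 / 100 * r)) ≤ Im (A \ dil r A) := by
  have hD : dil r A ⊆ A := by
    have := dil_mono hA hr hr1
    rwa [dil_one] at this
  have hPm := (hP0.2.2.2.2.2.2 (93 / 100) (by norm_num)).1.meas
  have hPQ : PB (93 / 100) ⊆ Q := hP.trans hQ
  have h1 := Im_add hP0 hC1 hA.meas (dm_dil hA hr).meas hQ
  rw [inter_eq_right.2 hD] at h1
  have h2 := Im_dil A hr
  have h3 : Im (PB (93 / 100 * r)) =
      r ^ 3 * ∫ y in PB (93 / 100) ∩ Hp, y.2 * mk (r * y.1, r * y.2) := by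
    rw [← Im_dil _ hr]
    congr 1
    rw [(hP0.2.2.2.2.2.2 (93 / 100 * r) (by positivity)).2.2.2.1,
      (hP0.2.2.2.2.2.2 (93 / 100) (by norm_num)).2.2.2.1, dil_dil, mul_comm]
  have i1 := integ hP0 hC1 hA.meas hQ
  have i2 := integ_scaled hP0 hC1 hA.meas hQ hr hr1
  have j1 := integ hP0 hC1 hPm hPQ
  have j2 := integ_scaled hP0 hC1 hPm hPQ hr hr1
  have h4 : ∫ y in PB (93 / 100) ∩ Hp, (y.2 * mk y - r ^ 2 * (y.2 * mk (r * y.1, r * y.2))) ≤
      ∫ y in A ∩ Hp, (y.2 * mk y - r ^ 2 * (y.2 * mk (r * y.1, r * y.2))) := by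
    apply setIntegral_mono_set (i1.sub (i2.const_mul _))
    · refine (ae_restrict_iff' (hA.meas.inter measurableSet_Hp)).2
        (Eventually.of_forall fun y hy => ?_)
      have hy2 : 0 < y.2 := (hQ hy.1).1
      have hy1 : 0 < y.1 := hy.2
      have hle := hC1.2.2.1 y r hy1 hy2 (hQ hy.1).2 hr hr1
      show 0 ≤ y.2 * mk y - r ^ 2 * (y.2 * mk (r * y.1, r * y.2))
      nlinarith
    · exact (inter_subset_inter_left _ hP).eventuallyLE
  rw [integral_sub j1 (j2.const_mul _), integral_sub i1 (i2.const_mul _), integral_const_mul,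
    integral_const_mul, ← Im_def, ← Im_def] at h4
  have h5 : r * (Im (PB (93 / 100)) -
      r ^ 2 * ∫ y in PB (93 / 100) ∩ Hp, y.2 * mk (r * y.1, r * y.2)) ≤
      r * (Im A - r ^ 2 * ∫ y in A ∩ Hp, y.2 * mk (r * y.1, r * y.2)) := by
    gcongr
  rw [h3]
  nlinarith

/-! ### the normalised statement -/

theorem g_dil (hP0 : StP0) {A : Set (ℝ × ℝ)} (hA : ∀ z ∈ A, g z ≤ 1) {r : ℝ} (hr : 0 < r)
    {z : ℝ × ℝ} (hz : z ∈ dil r A) : g z ≤ r := by
  have h1 := hA _ hz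
  have h2 := hP0.2.1 r (z.1 / r, z.2 / r) hr.le
  have h3 : (r * (z.1 / r), r * (z.2 / r)) = z := by
    rw [mul_div_cancel₀ _ hr.ne', mul_div_cancel₀ _ hr.ne']
  have h4 : g z = r * g (z.1 / r, z.2 / r) := by
    rw [← h2]
    show g z = g (r * (z.1 / r), r * (z.2 / r))
    rw [h3]
  rw [h4]
  calc r * g (z.1 / r, z.2 / r) ≤ r * 1 := by gcongr
    _ = r := mul_one r

theorem main (hK2 : StK2) (hK3 : StK3) (hK5 : StK5) (hP0 : StP0) (hP5 : StP5) (hC1 : StC1)
    (hC4 : StC4) {A B : Set (ℝ × ℝ)} {W V ρ0 : ℝ} {p0 q0 : ℝ × ℝ} (hA : Sol A W)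
    (hcA : Conf A ρ0 p0 q0) (hWA : W ≤ phi A p0) (hρ0 : 93 / 100 < ρ0) (hB : Sol B V)
    (outer : ∀ r, 1 < r → B ⊆ dil r A) (outer' : ∀ r, 0 < r → r < 1 → ¬ B ⊆ dil r A)
    (inn : ∀ z : ℝ × ℝ, 0 < z.2 → g z ≤ (93 / 100) ^ 2 → z ∈ B) : B = A := by
  have hg : Continuous g := hP0.1
  have hAv : 0 < (volume A).toReal := ENNReal.toReal_pos hA.vol_pos.ne' hA.dm.vol.ne
  have hAQ : A ⊆ Q := fun z hz => ⟨hA.dm.sub hz, hcA.out z hz⟩
  have hBg : ∀ z ∈ B, g z ≤ 1 := by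
    intro z hz
    by_contra hlt
    push Not at hlt
    have h1 := g_dil hP0 hcA.out (r := (1 + g z) / 2) (by linarith)
      (outer ((1 + g z) / 2) (by linarith) hz)
    linarith
  have hBQ : B ⊆ Q := fun z hz => ⟨hB.dm.sub hz, hBg z hz⟩
  -- the inner radius
  set Y : Set ℝ := {r | 0 < r ∧ dil r A ⊆ B} with hY
  have hYmem : ((93 / 100) ^ 2 : ℝ) ∈ Y := by
    refine ⟨by norm_num, fun z hz => ?_⟩
    exact inn z ((dm_dil hA.dm (by norm_num)).sub hz) (g_dil hP0 hcA.out (by norm_num) hz)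
  have hYle : ∀ r ∈ Y, r ≤ 1 := by
    rintro r ⟨hr, hrs⟩
    by_contra hlt
    push Not at hlt
    have h1 : dil r A ⊆ dil ((1 + r) / 2) A := hrs.trans (outer _ (by linarith))
    have h2 := vol_sdiff hK5 hA.dm (r := (1 + r) / 2) (s := r) (by linarith) (by linarith)
    rw [sdiff_eq_empty.2 h1, measure_empty, ENNReal.toReal_zero] at h2
    have h3 : 0 < r ^ 2 - ((1 + r) / 2) ^ 2 := by nlinarith
    have h4 := mul_pos h3 hAv
    linarith
  have hbdd : BddAbove Y := ⟨1, hYle⟩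
  set ρ := sSup Y with hρ
  have hρlow : (93 / 100) ^ 2 ≤ ρ := le_csSup hbdd hYmem
  have hρpos : 0 < ρ := lt_of_lt_of_le (by norm_num) hρlow
  have hρle : ρ ≤ 1 := csSup_le ⟨_, hYmem⟩ hYle
  have inner : ∀ r, 0 < r → r < ρ → dil r A ⊆ B := by
    intro r hr hrρ
    obtain ⟨r', hr', hlt⟩ := exists_lt_of_lt_csSup ⟨_, hYmem⟩ hrρ
    exact (dil_mono hA.dm hr hlt.le).trans hr'.2
  have inner' : ∀ r, ρ < r → ¬ dil r A ⊆ B := by
    intro r hr hs
    have := le_csSup hbdd (show r ∈ Y from ⟨hρpos.trans hr, hs⟩)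
    linarith
  -- first contact point
  obtain ⟨p, hp1, hp2, hgp, hVp, hWp⟩ : ∃ p : ℝ × ℝ, 0 ≤ p.1 ∧ 0 ≤ p.2 ∧ g p ≤ 1 ∧
      V ≤ phi B p ∧ phi A p ≤ W := by
    have hr0 : ∀ n : ℕ, (0 : ℝ) < 1 - 1 / ((n : ℝ) + 2) := by
      intro n
      have : 1 / ((n : ℝ) + 2) < 1 := by
        rw [div_lt_one (by positivity)]
        have : (0 : ℝ) ≤ n := Nat.cast_nonneg n
        linarith
      linarith
    have hr1 : ∀ n : ℕ, 1 - 1 / ((n : ℝ) + 2) < 1 := by
      intro n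
      have : 0 < 1 / ((n : ℝ) + 2) := by positivity
      linarith
    have hlim : Tendsto (fun n : ℕ => 1 - 1 / ((n : ℝ) + 2)) atTop (𝓝 1) := by
      have h1 : Tendsto (fun n : ℕ => 1 / ((n : ℝ) + 2)) atTop (𝓝 0) := by
        have h2 : Tendsto (fun n : ℕ => ((n : ℝ) + 2)) atTop atTop :=
          tendsto_atTop_add_const_right _ _ tendsto_natCast_atTop_atTop
        exact tendsto_const_nhds.div_atTop h2
      simpa using (tendsto_const_nhds (x := (1 : ℝ))).sub h1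
    have hex : ∀ n : ℕ, ∃ z : ℝ × ℝ, z ∈ B ∧ z ∉ dil (1 - 1 / ((n : ℝ) + 2)) A := fun n =>
      not_subset.1 (outer' _ (hr0 n) (hr1 n))
    choose z hzB hzA using hex
    obtain ⟨R, hR⟩ := hB.dm.bdd
    have hwB : ∀ n : ℕ, (|(z n).1|, (z n).2) ∈ B := fun n => (dm_abs hB.dm).2 (hzB n)
    have hwA : ∀ n : ℕ, (|(z n).1|, (z n).2) ∉ dil (1 - 1 / ((n : ℝ) + 2)) A := fun n h =>
      hzA n ((dm_abs (dm_dil hA.dm (hr0 n))).1 h)
    obtain ⟨p, s, h1, h2, hs, h3, h4, h5⟩ := contact hK3 hg hA.dm hB.dm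
      (fun n : ℕ => 1 - 1 / ((n : ℝ) + 2)) 1 one_pos hlim hr0 (fun n => (|(z n).1|, (z n).2)) R
      (fun n => hR (hwB n)) (fun n => abs_nonneg _)
    refine ⟨p, h1, h2, ?_, ?_, ?_⟩
    · exact le_of_tendsto' h5 fun n => hBg _ (hwB _)
    · exact ge_of_tendsto' h3 fun n => ((hB.iff _ (hB.dm.sub (hwB _))).1 (hwB _)).le
    · have h6 : phi A (p.1 / 1, p.2 / 1) ≤ W := by
        refine le_of_tendsto' h4 fun n => ?_
        have h7 : (0 : ℝ) < (z (s n)).2 := hB.dm.sub (hzB (s n))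
        by_contra hlt
        push Not at hlt
        exact hwA (s n) ((hA.iff _ (div_pos h7 (hr0 (s n)))).2 hlt)
      simpa using h6
  -- second contact point
  obtain ⟨q, hq1, hq2, hgq, hVq, hWq⟩ : ∃ q : ℝ × ℝ, 0 ≤ q.1 ∧ 0 ≤ q.2 ∧ g q ≤ 1 ∧
      phi B q ≤ V ∧ ρ * W ≤ phi (dil ρ A) q := by
    have hr0 : ∀ n : ℕ, (0 : ℝ) < ρ + 1 / ((n : ℝ) + 1) := by
      intro n
      positivity
    have hr1 : ∀ n : ℕ, ρ < ρ + 1 / ((n : ℝ) + 1) := by
      intro n
      have : 0 < 1 / ((n : ℝ) + 1) := by positivity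
      linarith
    have hr2 : ∀ n : ℕ, ρ + 1 / ((n : ℝ) + 1) ≤ ρ + 1 := by
      intro n
      have : 1 / ((n : ℝ) + 1) ≤ 1 := by
        rw [div_le_one (by positivity)]
        have : (0 : ℝ) ≤ n := Nat.cast_nonneg n
        linarith
      linarith
    have hlim : Tendsto (fun n : ℕ => ρ + 1 / ((n : ℝ) + 1)) atTop (𝓝 ρ) := by
      have h1 := tendsto_one_div_add_atTop_nhds_zero_nat (𝕜 := ℝ)
      simpa using (tendsto_const_nhds (x := ρ)).add h1
    have hex : ∀ n : ℕ, ∃ z : ℝ × ℝ, z ∈ dil (ρ + 1 / ((n : ℝ) + 1)) A ∧ z ∉ B := fun n =>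
      not_subset.1 (inner' _ (hr1 n))
    choose z hzA hzB using hex
    obtain ⟨R, hR⟩ := (dm_dil hA.dm (show 0 < ρ + 1 by linarith)).bdd
    have hwB : ∀ n : ℕ, (|(z n).1|, (z n).2) ∉ B := fun n h => hzB n ((dm_abs hB.dm).1 h)
    have hwA : ∀ n : ℕ, (|(z n).1|, (z n).2) ∈ dil (ρ + 1 / ((n : ℝ) + 1)) A := fun n =>
      (dm_abs (dm_dil hA.dm (hr0 n))).2 (hzA n)
    obtain ⟨q, s, h1, h2, hs, h3, h4, h5⟩ := contact hK3 hg hA.dm hB.dm
      (fun n : ℕ => ρ + 1 / ((n : ℝ) + 1)) ρ hρpos hlim hr0 (fun n => (|(z n).1|, (z n).2)) R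
      (fun n => hR (dil_mono hA.dm (hr0 n) (hr2 n) (hwA n))) (fun n => abs_nonneg _)
    refine ⟨q, h1, h2, ?_, ?_, ?_⟩
    · have h6 : g q ≤ ρ :=
        le_of_tendsto_of_tendsto' h5 (hlim.comp hs.tendsto_atTop) fun n =>
          g_dil hP0 hcA.out (hr0 (s n)) (hwA (s n))
      exact h6.trans hρle
    · refine le_of_tendsto' h3 fun n => ?_
      have h7 : (0 : ℝ) < (z (s n)).2 := (dm_dil hA.dm (hr0 (s n))).sub (hzA (s n))
      by_contra hlt
      push Not at hlt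
      exact hwB (s n) ((hB.iff (|(z (s n)).1|, (z (s n)).2) h7).2 hlt)
    · rw [phi_dil hK5 hA.dm hρpos]
      have h6 : W ≤ phi A (q.1 / ρ, q.2 / ρ) := by
        refine ge_of_tendsto' h4 fun n => ?_
        have h8 := hwA (s n)
        exact ((hA.iff _ (hA.dm.sub h8)).1 h8).le
      gcongr
  -- null sets
  have hN1 : volume (B \ A) = 0 := by
    have := null_outer hK5 hA.dm one_pos outer
    rwa [dil_one] at this
  have hN2 : volume (dil ρ A \ B) = 0 := null_inner hK5 hA.dm hρpos inner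
  rcases eq_or_lt_of_le hρle with hρ1 | hρ1
  · -- the case `ρ = 1`
    rw [hρ1, dil_one] at hN2
    have hae : B =ᵐ[volume] A := ae_eq_set.2 ⟨hN1, hN2⟩
    have hphi : ∀ z, phi B z = phi A z := phi_congr hae
    have hWV : W = V := by
      apply le_antisymm
      · rw [phi_dil hK5 hA.dm hρpos, hρ1] at hWq
        simp only [one_mul, div_one] at hWq
        rw [hphi] at hVq
        exact hWq.trans hVq
      · rw [hphi] at hVp
        exact hVp.trans hWp
    ext z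
    constructor
    · intro hz
      have h1 : 0 < z.2 := hB.dm.sub hz
      rw [hA.iff z h1, hWV, ← hphi]
      exact (hB.iff z h1).1 hz
    · intro hz
      have h1 : 0 < z.2 := hA.dm.sub hz
      rw [hB.iff z h1, ← hWV, hphi]
      exact (hA.iff z h1).1 hz
  · -- the case `ρ < 1`
    exfalso
    have hD := dm_dil hA.dm hρpos
    have hDA : dil ρ A ⊆ A := by
      have := dil_mono hA.dm hρpos hρle
      rwa [dil_one] at this
    have hPA : PB (93 / 100) ⊆ A := fun z hz => hcA.inn z hz.1 (hz.2.trans hρ0)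
    -- `phi` at `p`
    have e1 : phi B p = phi A p - ∫ y in A \ B, N p y := by
      have hint := (hK2 A hA.dm.meas hA.dm.sub hA.dm.vol p hp2).1
      have h1 := integral_inter_add_sdiff (μ := volume) (s := A) (t := B) hB.dm.meas hint
      have h2 : (A ∩ B : Set (ℝ × ℝ)) =ᵐ[volume] B := by
        rw [ae_eq_set]
        constructor
        · have : (A ∩ B) \ B = ∅ := by
            ext z; simp only [Set.mem_sdiff, mem_inter_iff, mem_empty_iff_false, iff_false]; tauto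
          rw [this]; simp
        · have : B \ (A ∩ B) = B \ A := by
            ext z; simp only [Set.mem_sdiff, mem_inter_iff]; tauto
          rw [this]; exact hN1
      rw [setIntegral_congr_set h2] at h1
      unfold phi
      linarith
    -- `phi` at `q`
    have e2 : phi B q = phi (dil ρ A) q + ∫ y in B \ dil ρ A, N q y := by
      have hint := (hK2 B hB.dm.meas hB.dm.sub hB.dm.vol q hq2).1
      have h1 := integral_inter_add_sdiff (μ := volume) (s := B) (t := dil ρ A) hD.meas hint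
      have h2 : (B ∩ dil ρ A : Set (ℝ × ℝ)) =ᵐ[volume] dil ρ A := by
        rw [ae_eq_set]
        constructor
        · have : (B ∩ dil ρ A) \ dil ρ A = ∅ := by
            ext z; simp only [Set.mem_sdiff, mem_inter_iff, mem_empty_iff_false, iff_false]; tauto
          rw [this]; simp
        · have : dil ρ A \ (B ∩ dil ρ A) = dil ρ A \ B := by
            ext z; simp only [Set.mem_sdiff, mem_inter_iff]; tauto
          rw [this]; exact hN2
      rw [setIntegral_congr_set h2] at h1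
      unfold phi
      linarith
    -- `phi` at `p0`
    have hPB := (hP0.2.2.2.2.2.2 1 one_pos).1
    have hPBQ : PB 1 ⊆ Q := fun z hz => ⟨hz.1, hz.2.le⟩
    have e3 : phi A p0 = phi (PB 1) p0 - ∫ y in PB 1 \ A, N p0 y := by
      have hint := (hK2 (PB 1) hPB.meas hPB.sub hPB.vol p0 hcA.p2).1
      have h1 := integral_inter_add_sdiff (μ := volume) (s := PB 1) (t := A) hA.dm.meas hint
      have h2 : (PB 1 ∩ A : Set (ℝ × ℝ)) =ᵐ[volume] A := by
        rw [inter_comm]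
        exact ae_PB hP0 hAQ
      rw [setIntegral_congr_set h2] at h1
      unfold phi
      linarith
    have sy : ∀ {S T : Set (ℝ × ℝ)}, DM S → DM T → ∀ z ∈ S \ T, (-z.1, z.2) ∈ S \ T := by
      intro S T hS hT z hz
      refine ⟨hS.symm hz.1, fun h => hz.2 ?_⟩
      have := hT.symm h
      simpa using this
    have f1 : Im (A \ B) ≤ ∫ y in A \ B, N p y :=
      Im_le hK2 hP0 hC1 (hA.dm.meas.diff hB.dm.meas) (sdiff_subset.trans hAQ)
        (sy hA.dm hB.dm) (lt_of_le_of_lt (measure_mono sdiff_subset) hA.dm.vol) hp1 hp2 hgp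
    have f2 : Im (B \ dil ρ A) ≤ ∫ y in B \ dil ρ A, N q y :=
      Im_le hK2 hP0 hC1 (hB.dm.meas.diff hD.meas) (sdiff_subset.trans hBQ)
        (sy hB.dm hD) (lt_of_le_of_lt (measure_mono sdiff_subset) hB.dm.vol) hq1 hq2 hgq
    have f3 : Im (PB 1 \ A) ≤ ∫ y in PB 1 \ A, N p0 y :=
      Im_le hK2 hP0 hC1 (hPB.meas.diff hA.dm.meas) (sdiff_subset.trans hPBQ)
        (sy hPB hA.dm) (lt_of_le_of_lt (measure_mono sdiff_subset) hPB.vol) hcA.p1 hcA.p2
        hcA.gp.le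
    have f4 : phi (PB 1) p0 ≤ 1006 := (hP5 p0 hcA.p1 hcA.p2 hcA.gp).2
    have f5 : Im (A \ dil ρ A) ≤ Im (B \ dil ρ A) + Im (A \ B) := by
      have h1 := Im_add hP0 hC1 (hA.dm.meas.diff hD.meas) hB.dm.meas
        (sdiff_subset.trans hAQ)
      have h2 : Im ((A \ dil ρ A) ∩ B) ≤ Im (B \ dil ρ A) :=
        Im_mono hP0 hC1 (hB.dm.meas.diff hD.meas)
          (fun z hz => ⟨hz.2, hz.1.2⟩) (sdiff_subset.trans hBQ)
      have h3 : Im ((A \ dil ρ A) \ B) ≤ Im (A \ B) :=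
        Im_mono hP0 hC1 (hA.dm.meas.diff hB.dm.meas)
          (fun z hz => ⟨hz.1.1, hz.2⟩) (sdiff_subset.trans hAQ)
      linarith
    have f6 := Im_key hP0 hC1 hA.dm hAQ hPA hρpos hρle
    have f7 : Im (PB 1) = Im A + Im (PB 1 \ A) := by
      have h1 := Im_add hP0 hC1 hPB.meas hA.dm.meas hPBQ
      have h2 : Im (PB 1 ∩ A) = Im A := by
        rw [inter_comm]
        exact Im_congr (ae_PB hP0 hAQ)
      linarith
    have hPm := (hP0.2.2.2.2.2.2 (93 / 100) (by norm_num)).1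
    have hPm' := (hP0.2.2.2.2.2.2 (93 / 100 * ρ) (by positivity)).1
    have f8 : Im (PB 1) = Im (PB (93 / 100)) + Im (PB 1 \ PB (93 / 100)) := by
      have h1 := Im_add hP0 hC1 hPB.meas hPm.meas hPBQ
      have h2 : PB 1 ∩ PB (93 / 100) = PB (93 / 100) := by
        rw [inter_eq_right]
        intro z hz
        exact ⟨hz.1, hz.2.trans (by norm_num)⟩
      rwa [h2] at h1
    have f9 : Im (PB (93 / 100)) = Im (PB (93 / 100 * ρ)) +
        Im (PB (93 / 100) \ PB (93 / 100 * ρ)) := by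
      have h1 := Im_add hP0 hC1 hPm.meas hPm'.meas (hPA.trans hAQ)
      have h2 : PB (93 / 100) ∩ PB (93 / 100 * ρ) = PB (93 / 100 * ρ) := by
        rw [inter_eq_right]
        intro z hz
        refine ⟨hz.1, lt_of_lt_of_le hz.2 ?_⟩
        nlinarith
      rwa [h2] at h1
    have f10 := hC4 ρ hρlow hρ1
    -- assembly
    have g1 : ρ * W + Im (B \ dil ρ A) ≤ W - Im (A \ B) := by linarith
    have g2 : W ≤ 1006 - Im (PB 1 \ A) := by linarith
    have g3 : (1 - ρ) * W ≤ (1 - ρ) * (1006 - Im (PB 1 \ A)) := by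
      have : 0 ≤ 1 - ρ := by linarith
      gcongr
    nlinarith

end VD.M_U4

namespace VD

open M_U4 in
/-- uniqueness of solutions up to dilation -/
theorem mU4 (hK2 : StK2) (hK3 : StK3) (hK5 : StK5) (hP0 : StP0) (hP5 : StP5) (hU0 : StU0)
    (hU3 : StU3) (hC1 : StC1) (hC4 : StC4) : StU4 := by
  intro A W A' W' hA hA'
  obtain ⟨a, ha, hSA, ρ0, p0, q0, hcA, hWA⟩ := hU0 A W hA
  obtain ⟨b, hb, hSB, ρ1, p1, q1, hcB, -⟩ := hU0 A' W' hA'
  have hρ0 := hU3 _ _ hSA _ _ _ hcA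
  have hρ1 := hU3 _ _ hSB _ _ _ hcB
  generalize hA0 : dil a A = A0 at hSA hcA hWA
  generalize hA1 : dil b A' = A1 at hSB hcB
  -- the outer radius
  set X : Set ℝ := {r | 0 < r ∧ A1 ⊆ dil r A0} with hX
  have hXmem : (100 / 93 : ℝ) ∈ X := by
    refine ⟨by norm_num, fun z hz => ?_⟩
    rw [mem_dil]
    apply hcA.inn
    · have : 0 < z.2 := hSB.dm.sub hz
      exact div_pos this (by norm_num)
    · have h1 := hP0.2.1 (93 / 100) z (by norm_num)
      have h2 : ((93 / 100 : ℝ) * z.1, (93 / 100 : ℝ) * z.2) =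
          (z.1 / (100 / 93), z.2 / (100 / 93)) := by
        ext
        · show (93 / 100 : ℝ) * z.1 = z.1 / (100 / 93)
          ring
        · show (93 / 100 : ℝ) * z.2 = z.2 / (100 / 93)
          ring
      rw [← h2, h1]
      have h3 := hcB.out z hz
      linarith
  have hXlow : ∀ r ∈ X, (93 / 100 : ℝ) ≤ r := by
    rintro r ⟨hr, hrs⟩
    by_contra hlt
    push Not at hlt
    have hPm := (hP0.2.2.2.2.2.2 (93 / 100) (by norm_num))
    -- a point with `r < g z < 93/100`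
    have hsub : PB (93 / 100) ⊆ {z : ℝ × ℝ | 0 < z.2 ∧ g z ≤ r} := by
      intro z hz
      have h1 : z ∈ A1 := hcB.inn z hz.1 (hz.2.trans hρ1)
      exact ⟨hz.1, g_dil hP0 hcA.out hr (hrs h1)⟩
    -- scale up a point
    obtain ⟨z, hz⟩ := (hP0.2.2.2.2.2.2 1 one_pos).2.1
    have hz0 : 0 < z.2 := hz.1
    have hgz : 0 < g z := by
      have h2 := (hP0.2.2.1 z hz0.le).2.2.1
      by_contra hneg
      push Not at hneg
      nlinarith
    set c : ℝ := (r + 93 / 100) / 2 / g z with hc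
    have hc0 : 0 < c := by positivity
    have h3 := hP0.2.1 c z hc0.le
    have h4 : c * g z = (r + 93 / 100) / 2 := by
      rw [hc, div_mul_cancel₀ _ hgz.ne']
    have h5 : (c * z.1, c * z.2) ∈ PB (93 / 100) := by
      refine ⟨mul_pos hc0 hz0, ?_⟩
      show g (c * z.1, c * z.2) < 93 / 100
      rw [h3, h4]
      linarith
    have h6 := (hsub h5).2
    rw [h3, h4] at h6
    linarith
  have hbdd : BddBelow X := ⟨93 / 100, hXlow⟩
  set R := sInf X with hR
  have hRlow : (93 / 100 : ℝ) ≤ R := le_csInf ⟨_, hXmem⟩ hXlow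
  have hRpos : 0 < R := lt_of_lt_of_le (by norm_num) hRlow
  have hRle : R ≤ 100 / 93 := csInf_le hbdd hXmem
  have hRinv : 0 < 1 / R := by positivity
  have hout : ∀ r, R < r → A1 ⊆ dil r A0 := by
    intro r hr
    obtain ⟨r', hr', hlt⟩ := exists_lt_of_csInf_lt ⟨_, hXmem⟩ hr
    exact hr'.2.trans (dil_mono hSA.dm hr'.1 hlt.le)
  have hout' : ∀ r, 0 < r → r < R → ¬ A1 ⊆ dil r A0 := by
    intro r hr hrR hs
    have := csInf_le hbdd (show r ∈ X from ⟨hr, hs⟩)
    linarith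
  have key : dil (1 / R) A1 = A0 := by
    refine M_U4.main hK2 hK3 hK5 hP0 hP5 hC1 hC4 hSA hcA hWA hρ0 (sol_dil hK5 hSB hRinv) ?_ ?_ ?_
    · intro r hr
      have h1 := dil_subset (hout (r * R) (by nlinarith)) (1 / R)
      rw [dil_dil] at h1
      have h2 : 1 / R * (r * R) = r := by field_simp
      rwa [h2] at h1
    · intro r hr hr1 hs
      apply hout' (r * R) (by positivity) (by nlinarith)
      have h1 := dil_subset hs R
      rw [dil_dil, dil_dil, mul_one_div_cancel hRpos.ne', dil_one, mul_comm] at h1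
      exact h1
    · intro z hz hgz
      rw [mem_dil]
      apply hcB.inn
      · exact div_pos hz hRinv
      · have h1 := hP0.2.1 R z hRpos.le
        have h2 : (R * z.1, R * z.2) = (z.1 / (1 / R), z.2 / (1 / R)) := by
          ext
          · show R * z.1 = z.1 / (1 / R)
            field_simp
          · show R * z.2 = z.2 / (1 / R)
            field_simp
        rw [← h2, h1]
        have h3 := (hP0.2.2.1 z hz.le).1
        have h4 : R * g z ≤ 100 / 93 * (93 / 100) ^ 2 := by gcongr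
        have h5 : (100 / 93 * (93 / 100) ^ 2 : ℝ) = 93 / 100 := by norm_num
        linarith
  -- back to `A` and `A'`
  refine ⟨1 / b * R * a, by positivity, ?_⟩
  have h1 : A' = dil (1 / b) A1 := by
    rw [← hA1, dil_dil, one_div_mul_cancel hb.ne', dil_one]
  have h2 : A1 = dil R A0 := by
    rw [← key, dil_dil, mul_one_div_cancel hRpos.ne', dil_one]
  rw [h1, h2, ← hA0, dil_dil, dil_dil]

end VD
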