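import Pool.Agent.Helper50.VD.St

open MeasureTheory Set Filter Topology
open scoped ENNReal

noncomputable section

namespace VD.M_X3

/-- reflection as a measurable equivalence -/
def rE (l : ℝ) : (ℝ × ℝ) ≃ᵐ (ℝ × ℝ) :=
  MeasurableEquiv.prodCongr (MeasurableEquiv.subLeft (2 * l)) (MeasurableEquiv.refl ℝ)

theorem rE_apply (l : ℝ) (z : ℝ × ℝ) : rE l z = rfl' l z := rfl

theorem mp_rE (l : ℝ) : MeasurePreserving (rE l) volume volume := by
  have := (Measure.measurePreserving_sub_left (volume : Measure ℝ) (2 * l)).prod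
    (MeasurePreserving.id (volume : Measure ℝ))
  exact this

theorem rfl_rfl (l : ℝ) (z : ℝ × ℝ) : rfl' l (rfl' l z) = z := by
  ext
  · show 2 * l - (2 * l - z.1) = z.1
    ring
  · rfl

theorem meas_rfl (l : ℝ) : Measurable (rfl' l) := (rE l).measurable

theorem vol_line (l : ℝ) : volume {z : ℝ × ℝ | z.1 = l} = 0 := by
  have : {z : ℝ × ℝ | z.1 = l} = {l} ×ˢ univ := by
    ext z; simp
  rw [this, Measure.volume_eq_prod, Measure.prod_prod]
  simp

theorem meas_lt (l : ℝ) : MeasurableSet {z : ℝ × ℝ | z.1 < l} :=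
  measurableSet_lt measurable_fst measurable_const

theorem meas_gt (l : ℝ) : MeasurableSet {z : ℝ × ℝ | l < z.1} :=
  measurableSet_lt measurable_const measurable_fst

theorem meas_Pl {A : Set (ℝ × ℝ)} (hA : MeasurableSet A) (l : ℝ) : MeasurableSet (Pl A l) :=
  (meas_lt l).inter (hA.inter (meas_rfl l hA).compl)

theorem meas_Ql {A : Set (ℝ × ℝ)} (hA : MeasurableSet A) (l : ℝ) : MeasurableSet (Ql A l) :=
  (meas_lt l).inter (hA.compl.inter (meas_rfl l hA))

theorem Ql_eq (A : Set (ℝ × ℝ)) (l : ℝ) : Ql A l ⊆ rfl' l ⁻¹' A := fun _ hz => hz.2.2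

/-- the basic decomposition -/
theorem decomp {A : Set (ℝ × ℝ)} (hA : MeasurableSet A) (l : ℝ) (D : ℝ × ℝ → ℝ)
    (hD : ∀ y, D (rfl' l y) = -D y) (hint : IntegrableOn D A) :
    IntegrableOn D (Pl A l) ∧ IntegrableOn D (Ql A l) ∧
    ∫ y in A, D y = (∫ y in Pl A l, D y) - ∫ y in Ql A l, D y := by
  set L : Set (ℝ × ℝ) := {z | z.1 < l} with hL
  have hLm : MeasurableSet L := meas_lt l
  set A' : Set (ℝ × ℝ) := rfl' l ⁻¹' A with hA'
  have hA'm : MeasurableSet A' := meas_rfl l hA
  have hfun : ∀ y, D y = -D (rE l y) := fun y => by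
    rw [rE_apply, hD, neg_neg]
  -- integrability on `A'`
  have hint' : IntegrableOn D A' := by
    have h1 := ((mp_rE l).integrableOn_comp_preimage (rE l).measurableEmbedding
      (f := D) (s := A)).2 hint
    have h2 : IntegrableOn (fun y => -(D ∘ rE l) y) A' := Integrable.neg h1
    exact h2.congr_fun (fun y _ => (hfun y).symm) hA'm
  -- the right half
  have hright : ∫ y in A \ L, D y = -∫ y in A' ∩ L, D y := by
    have hae : (A \ L : Set (ℝ × ℝ)) =ᵐ[volume] (rE l) ⁻¹' (A' ∩ L) := by
      rw [ae_eq_set]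
      constructor
      · refine measure_mono_null ?_ (vol_line l)
        intro z hz
        by_contra h0
        have h1 : ¬ (z.1 < l) := hz.1.2
        have h2 : l < z.1 := lt_of_le_of_ne (not_lt.1 h1) (Ne.symm h0)
        apply hz.2
        show rfl' l z ∈ A' ∩ L
        refine ⟨?_, ?_⟩
        · show rfl' l (rfl' l z) ∈ A
          rw [rfl_rfl]
          exact hz.1.1
        · show 2 * l - z.1 < l
          linarith
      · have : (rE l) ⁻¹' (A' ∩ L) \ (A \ L) = ∅ := by
          ext z
          simp only [Set.mem_sdiff, mem_preimage, mem_inter_iff, mem_empty_iff_false, iff_false,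
            not_and, not_not]
          rintro ⟨h1, h2⟩ h3
          exfalso
          have h4 : rfl' l (rfl' l z) ∈ A := h1
          rw [rfl_rfl] at h4
          have h5 : z.1 < l := h3 h4
          have h6 : 2 * l - z.1 < l := h2
          linarith
        rw [this]; simp
    rw [setIntegral_congr_set hae]
    have h1 := (mp_rE l).setIntegral_preimage_emb (rE l).measurableEmbedding D (A' ∩ L)
    rw [← h1, ← integral_neg]
    exact setIntegral_congr_fun ((rE l).measurable (hA'm.inter hLm)) fun y _ => hfun y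
  have hP : (A ∩ L) \ A' = Pl A l := by
    ext z
    show (z ∈ A ∧ z.1 < l) ∧ ¬ rfl' l z ∈ A ↔ z.1 < l ∧ z ∈ A ∧ rfl' l z ∉ A
    tauto
  have hQ : (A' ∩ L) \ A = Ql A l := by
    ext z
    show (rfl' l z ∈ A ∧ z.1 < l) ∧ ¬ z ∈ A ↔ z.1 < l ∧ z ∉ A ∧ rfl' l z ∈ A
    tauto
  have hPi : IntegrableOn D (Pl A l) := hint.mono_set fun z hz => hz.2.1
  have hQi : IntegrableOn D (Ql A l) := hint'.mono_set fun z hz => hz.2.2
  refine ⟨hPi, hQi, ?_⟩
  have e1 := integral_inter_add_sdiff (μ := volume) (s := A) (t := L) hLm hint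
  have e2 := integral_inter_add_sdiff (μ := volume) (s := A ∩ L) (t := A') hA'm
    (hint.mono_set inter_subset_left)
  have e3 := integral_inter_add_sdiff (μ := volume) (s := A' ∩ L) (t := A) hA
    (hint'.mono_set inter_subset_left)
  rw [hP] at e2
  rw [hQ] at e3
  have e4 : A ∩ L ∩ A' = A' ∩ L ∩ A := by
    ext z; simp only [mem_inter_iff]; tauto
  rw [e4] at e2
  linarith

/-- strict monotonicity of the kernel in the horizontal distance -/
theorem N_lt {x x' s : ℝ} {y : ℝ × ℝ} (hs : 0 ≤ s) (hy : 0 < y.2)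
    (h : (x - y.1) ^ 2 < (x' - y.1) ^ 2) (hne : (x, s) ≠ y) : N (x', s) y < N (x, s) y := by
  unfold N
  rcases eq_or_lt_of_le hs with h0 | h0
  · have h1 : ((x', s) : ℝ × ℝ).2 = 0 := h0.symm
    have h2 : ((x, s) : ℝ × ℝ).2 = 0 := h0.symm
    rw [if_pos h1, if_pos h2]
    have hpi := Real.pi_pos
    apply div_lt_div_of_pos_left hy (by positivity)
    have : (x - y.1) ^ 2 + y.2 ^ 2 < (x' - y.1) ^ 2 + y.2 ^ 2 := by linarith
    exact mul_lt_mul_of_pos_left this hpi
  · have h1 : ((x', s) : ℝ × ℝ).2 ≠ 0 := h0.ne'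
    have h2 : ((x, s) : ℝ × ℝ).2 ≠ 0 := h0.ne'
    rw [if_neg h1, if_neg h2]
    unfold G
    have hpi := Real.pi_pos
    have hden : 0 < (x - y.1) ^ 2 + (s - y.2) ^ 2 := by
      by_contra hcon
      push Not at hcon
      have h3 : (x - y.1) ^ 2 = 0 := by nlinarith [sq_nonneg (x - y.1), sq_nonneg (s - y.2)]
      have h4 : (s - y.2) ^ 2 = 0 := by nlinarith [sq_nonneg (x - y.1), sq_nonneg (s - y.2)]
      apply hne
      ext
      · have := pow_eq_zero_iff (two_ne_zero) |>.1 h3
        show x = y.1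
        linarith
      · have := pow_eq_zero_iff (two_ne_zero) |>.1 h4
        show s = y.2
        linarith
    apply div_lt_div_of_pos_right _ h0
    apply div_lt_div_of_pos_right _ (by positivity)
    apply Real.log_lt_log
    · have : 0 < (x' - y.1) ^ 2 := lt_of_le_of_lt (sq_nonneg _) h
      positivity
    · show ((x' - y.1) ^ 2 + (s + y.2) ^ 2) / ((x' - y.1) ^ 2 + (s - y.2) ^ 2) <
        ((x - y.1) ^ 2 + (s + y.2) ^ 2) / ((x - y.1) ^ 2 + (s - y.2) ^ 2)
      rw [div_lt_div_iff₀ (by nlinarith [sq_nonneg (s - y.2)]) hden]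
      have h5 : 0 < (s + y.2) ^ 2 - (s - y.2) ^ 2 := by nlinarith [mul_pos h0 hy]
      nlinarith

theorem N_rfl (l : ℝ) (z y : ℝ × ℝ) : N z (rfl' l y) = N (rfl' l z) y := by
  unfold N G rfl'
  have h1 : (z.1 - (2 * l - y.1)) ^ 2 = (2 * l - z.1 - y.1) ^ 2 := by ring
  simp only [h1]

end VD.M_X3

namespace VD

open M_X3 in
/-- symmetry about the centre of mass from polarisation inequality -/
theorem mX3 (hK2 : StK2) (hK5 : StK5) : StX3 := by
  rintro A hA hOm ⟨R, hR⟩ hv hm0 hpol
  have hfin : volume A < ∞ := vol_lt_top hR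
  set v : ℝ := (volume A).toReal with hvdef
  have hvpos : 0 < v := ENNReal.toReal_pos hv.ne' hfin.ne
  have hint1 : IntegrableOn (fun z : ℝ × ℝ => z.1) A := by
    refine Measure.integrableOn_of_bounded hfin.ne (M := R) ?_ ?_
    · exact measurable_fst.aestronglyMeasurable
    · exact (ae_restrict_iff' hA).2 (Eventually.of_forall fun z hz => (hR hz).1)
  have hintl : ∀ l : ℝ, IntegrableOn (fun z : ℝ × ℝ => z.1 - l) A := fun l =>
    hint1.sub (integrableOn_const hfin.ne)
  set m : ℝ := (∫ z in A, z.1) / v with hm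
  have hmv : ∀ l : ℝ, ∫ z in A, (z.1 - l) = v * (m - l) := by
    intro l
    rw [integral_sub hint1 (integrableOn_const hfin.ne), setIntegral_const, smul_eq_mul, hm]
    have : (volume.real A) = v := rfl
    rw [this]
    field_simp
  have hdec : ∀ l : ℝ, v * (m - l) =
      (∫ z in Pl A l, (z.1 - l)) - ∫ z in Ql A l, (z.1 - l) := by
    intro l
    rw [← hmv l]
    refine (decomp hA l (fun z => z.1 - l) ?_ (hintl l)).2.2
    intro y
    show 2 * l - y.1 - l = -(y.1 - l)
    ring
  -- a negative function on a set of positive measure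
  have hneg : ∀ (l : ℝ) (S : Set (ℝ × ℝ)), MeasurableSet S → S ⊆ {z | z.1 < l} →
      IntegrableOn (fun z : ℝ × ℝ => z.1 - l) S → 0 < volume S → ∫ z in S, (z.1 - l) < 0 := by
    intro l S hS hSl hi hpos
    have h1 : 0 < ∫ z in S, (l - z.1) := by
      rw [setIntegral_pos_iff_support_of_nonneg_ae]
      · refine lt_of_lt_of_le hpos (measure_mono ?_)
        intro z hz
        refine ⟨?_, hz⟩
        have : z.1 < l := hSl hz
        rw [Function.mem_support]
        linarith
      · refine (ae_restrict_iff' hS).2 (Eventually.of_forall fun z hz => ?_)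
        have : z.1 < l := hSl hz
        show 0 ≤ l - z.1
        linarith
      · have := hi.neg
        refine this.congr (Eventually.of_forall fun z => ?_)
        show -(z.1 - l) = l - z.1
        ring
    have h2 : ∫ z in S, (z.1 - l) = -∫ z in S, (l - z.1) := by
      rw [← integral_neg]
      congr 1
      ext z
      ring
    linarith
  have hnull : ∀ (l : ℝ) (S : Set (ℝ × ℝ)), volume S = 0 → ∫ z in S, (z.1 - l) = 0 := by
    intro l S hS
    rw [Measure.restrict_eq_zero.2 hS]
    simp
  have hPi : ∀ l : ℝ, IntegrableOn (fun z : ℝ × ℝ => z.1 - l) (Pl A l) := fun l =>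
    (decomp hA l (fun z => z.1 - l) (fun y => by show 2 * l - y.1 - l = -(y.1 - l); ring)
      (hintl l)).1
  have hQi : ∀ l : ℝ, IntegrableOn (fun z : ℝ × ℝ => z.1 - l) (Ql A l) := fun l =>
    (decomp hA l (fun z => z.1 - l) (fun y => by show 2 * l - y.1 - l = -(y.1 - l); ring)
      (hintl l)).2.1
  have hmnn : 0 ≤ m := div_nonneg hm0 hvpos.le
  -- both null at `m`
  have hPm : volume (Pl A m) = 0 ∧ volume (Ql A m) = 0 := by
    have h1 := hdec m
    rw [sub_self, mul_zero] at h1
    rcases hpol m hmnn with h2 | h2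
    · refine ⟨h2, ?_⟩
      by_contra h3
      have h4 := hneg m (Ql A m) (meas_Ql hA m) (fun z hz => hz.1) (hQi m)
        (pos_iff_ne_zero.2 h3)
      rw [hnull m _ h2] at h1
      linarith
    · refine ⟨?_, h2⟩
      by_contra h3
      have h4 := hneg m (Pl A m) (meas_Pl hA m) (fun z hz => hz.1) (hPi m)
        (pos_iff_ne_zero.2 h3)
      rw [hnull m _ h2] at h1
      linarith
  have hsym : ∀ᵐ z, z ∈ A ↔ rfl' m z ∈ A := by
    have h1 : ∀ᵐ z : ℝ × ℝ, z ∉ Pl A m := measure_eq_zero_iff_ae_notMem.1 hPm.1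
    have h2 : ∀ᵐ z : ℝ × ℝ, z ∉ Ql A m := measure_eq_zero_iff_ae_notMem.1 hPm.2
    have h3 : ∀ᵐ z : ℝ × ℝ, rfl' m z ∉ Pl A m := (mp_rE m).quasiMeasurePreserving.ae h1
    have h4 : ∀ᵐ z : ℝ × ℝ, rfl' m z ∉ Ql A m := (mp_rE m).quasiMeasurePreserving.ae h2
    have h5 : ∀ᵐ z : ℝ × ℝ, z.1 ≠ m := by
      rw [ae_iff]
      simp only [ne_eq, not_not]
      exact vol_line m
    filter_upwards [h1, h2, h3, h4, h5] with z h1 h2 h3 h4 h5
    rcases lt_or_gt_of_ne h5 with h6 | h6
    · constructor
      · intro hz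
        by_contra hn
        exact h1 ⟨h6, hz, hn⟩
      · intro hz
        by_contra hn
        exact h2 ⟨h6, hn, hz⟩
    · have h7 : (rfl' m z).1 < m := by
        show 2 * m - z.1 < m
        linarith
      constructor
      · intro hz
        by_contra hn
        exact h4 ⟨h7, hn, by rw [rfl_rfl]; exact hz⟩
      · intro hz
        by_contra hn
        exact h3 ⟨h7, hz, by rw [rfl_rfl]; exact hn⟩
  refine ⟨m, hmnn, hsym, ?_, ?_⟩
  · intro z _
    rw [← (hK5.2.2 A m hA hOm).1 z]
    apply phi_congr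
    exact (Filter.eventuallyEq_set.2 hsym).symm
  · intro x x' s hs hx hxx'
    set l := (x + x') / 2 with hl
    have hml : m < l := by linarith
    have hPpos : 0 < volume (Pl A l) := by
      rw [pos_iff_ne_zero]
      intro h0
      have h1 := hdec l
      rw [hnull l _ h0] at h1
      have h2 : ∫ z in Ql A l, (z.1 - l) ≤ 0 := by
        apply setIntegral_nonpos (meas_Ql hA l)
        intro z hz
        have : z.1 < l := hz.1
        linarith
      nlinarith
    have hQ0 : volume (Ql A l) = 0 := (hpol l (hmnn.trans hml.le)).resolve_left hPpos.ne'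
    have hi1 := (hK2 A hA hOm hfin (x, s) hs).1
    have hi2 := (hK2 A hA hOm hfin (x', s) hs).1
    have hrx : rfl' l (x, s) = (x', s) := by
      ext
      · show 2 * l - x = x'
        rw [hl]; ring
      · rfl
    have hrx' : rfl' l (x', s) = (x, s) := by
      ext
      · show 2 * l - x' = x
        rw [hl]; ring
      · rfl
    obtain ⟨d1, d2, d3⟩ := decomp hA l (fun y => N (x, s) y - N (x', s) y) (by
      intro y
      show N (x, s) (rfl' l y) - N (x', s) (rfl' l y) = -(N (x, s) y - N (x', s) y)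
      rw [N_rfl, N_rfl, hrx, hrx']
      ring) (hi1.sub hi2)
    have d4 : ∫ y in Ql A l, (N (x, s) y - N (x', s) y) = 0 := by
      rw [Measure.restrict_eq_zero.2 hQ0]
      simp
    have hpt : ∀ y ∈ Pl A l, (x, s) ≠ y → 0 < N (x, s) y - N (x', s) y := by
      intro y hy hne
      have hy1 : y.1 < l := hy.1
      have h1 : (x - y.1) ^ 2 < (x' - y.1) ^ 2 := by
        have : 0 < (x' - x) * (x' + x - 2 * y.1) := by
          apply mul_pos
          · linarith
          · rw [hl] at hy1
            linarith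
        nlinarith
      have := N_lt hs (hOm hy.2.1) h1 hne
      linarith
    have hae : ∀ᵐ y : ℝ × ℝ, (x, s) ≠ y := by
      rw [ae_iff]
      simp only [ne_eq, not_not]
      have : {a : ℝ × ℝ | (x, s) = a} = {(x, s)} := by
        ext a
        simp [eq_comm]
      rw [this]
      exact measure_singleton _
    have d5 : 0 < ∫ y in Pl A l, (N (x, s) y - N (x', s) y) := by
      rw [setIntegral_pos_iff_support_of_nonneg_ae]
      · refine lt_of_lt_of_le hPpos ?_
        apply measure_mono_ae
        filter_upwards [hae] with y hy hyP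
        refine ⟨?_, hyP⟩
        rw [Function.mem_support]
        exact (hpt y hyP hy).ne'
      · refine (ae_restrict_iff' (meas_Pl hA l)).2 ?_
        filter_upwards [hae] with y hy hyP
        exact (hpt y hyP hy).le
      · exact d1
    have d6 : phi A (x, s) - phi A (x', s) = ∫ y in A, (N (x, s) y - N (x', s) y) := by
      unfold phi
      rw [integral_sub hi1 hi2]
    rw [d4, sub_zero] at d3
    rw [d3] at d6
    linarith

end VD
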